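import Pool.Agent.Y788.SL.Stm

set_option autoImplicit false

/-!
# Job SL-E: the move in `SL_n(F)`
-/

namespace Pool.Agent.Y98.SL

open Matrix Pool.Agent.H302R2 Pool.Agent.H541R3.ART Pool.Agent.Y788.SL

variable {F : Type} [Field F] {n : ℕ}

lemma slext {x y : SpecialLinearGroup (Fin n) F}
    (h : (x : Matrix (Fin n) (Fin n) F) = (y : Matrix (Fin n) (Fin n) F)) : x = y := Subtype.ext h

lemma slmul (x y : SpecialLinearGroup (Fin n) F) :
    ((x * y : SpecialLinearGroup (Fin n) F) : Matrix (Fin n) (Fin n) F) =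
      (x : Matrix (Fin n) (Fin n) F) * (y : Matrix (Fin n) (Fin n) F) := rfl

lemma slone : ((1 : SpecialLinearGroup (Fin n) F) : Matrix (Fin n) (Fin n) F) = 1 := rfl

/-- the functionals which kill `v` -/
def KK (v : Fin n → F) : Submodule F (Fin n → F) where
  carrier := {α | α ⬝ᵥ v = 0}
  zero_mem' := zero_dotProduct v
  add_mem' := fun {a b} ha hb => by
    rw [Set.mem_ofPred_eq] at *
    rw [add_dotProduct, ha, hb, add_zero]
  smul_mem' := fun c a ha => by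
    rw [Set.mem_ofPred_eq] at *
    rw [smul_dotProduct, ha, smul_zero]

lemma KK_mem {v : Fin n → F} (α : KK v) : α.1 ⬝ᵥ v = 0 := α.2

/-- the transvections with the vector `v` -/
def tv (v : Fin n → F) (α : KK v) : SpecialLinearGroup (Fin n) F :=
  ⟨1 + vecMulVec v α.1, by
    rw [vecMulVec_eq Unit, det_one_add_replicateCol_mul_replicateRow, KK_mem, add_zero]⟩

lemma tv_coe (v : Fin n → F) (α : KK v) :
    ((tv v α : SpecialLinearGroup (Fin n) F) : Matrix (Fin n) (Fin n) F) = 1 + vecMulVec v α.1 :=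
  rfl

lemma tv_add (v : Fin n → F) (α β : KK v) : tv v (α + β) = tv v α * tv v β := by
  refine slext ?_
  rw [slmul, tv_coe, tv_coe, tv_coe, mul_add, mul_one, add_mul, one_mul,
    vecMulVec_mul_vecMulVec, KK_mem, zero_smul, vecMulVec_zero, add_zero, Submodule.coe_add,
    vecMulVec_add, add_assoc]

lemma tv_zero (v : Fin n → F) : tv v 0 = 1 := by
  refine slext ?_
  rw [tv_coe, Submodule.coe_zero, vecMulVec_zero, add_zero, slone]

lemma tv_neg (v : Fin n → F) (α : KK v) : tv v (-α) = (tv v α)⁻¹ := by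
  rw [eq_inv_iff_mul_eq_one, ← tv_add, neg_add_cancel, tv_zero]

lemma tv_comm (v : Fin n → F) (α β : KK v) : tv v α * tv v β = tv v β * tv v α := by
  rw [← tv_add, ← tv_add, add_comm]

lemma tv_inj {v : Fin n → F} (hv : v ≠ 0) : Function.Injective (tv v) := by
  intro α β h
  have h1 : ((tv v α : SpecialLinearGroup (Fin n) F) : Matrix (Fin n) (Fin n) F) = tv v β := by
    rw [h]
  rw [tv_coe, tv_coe, add_right_inj] at h1
  apply Subtype.ext
  funext j
  obtain ⟨i, hi⟩ := Function.ne_iff.1 hv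
  have h2 := congrFun (congrFun h1 i) j
  rw [vecMulVec_apply, vecMulVec_apply] at h2
  exact mul_left_cancel₀ hi h2

lemma tv_isTv {v : Fin n → F} (hv : v ≠ 0) {α : KK v} (hα : α ≠ 0) : IsTv (tv v α) :=
  ⟨v, α.1, hv, fun h => hα (Subtype.ext h), KK_mem α, rfl⟩

/-- the action of a matrix on `KK v` -/
def mkP {v : Fin n → F} (A : Matrix (Fin n) (Fin n) F) (c μ : F) (h : A *ᵥ v = μ • v) :
    KK v →ₗ[F] KK v where
  toFun α := ⟨c • (α.1 ᵥ* A), by
    show (c • (α.1 ᵥ* A)) ⬝ᵥ v = 0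
    rw [smul_dotProduct, ← dotProduct_mulVec, h, dotProduct_smul, KK_mem, smul_zero, smul_zero]⟩
  map_add' α β := by
    apply Subtype.ext
    show c • ((α.1 + β.1) ᵥ* A) = c • (α.1 ᵥ* A) + c • (β.1 ᵥ* A)
    rw [add_vecMul, smul_add]
  map_smul' b α := by
    apply Subtype.ext
    show c • ((b • α.1) ᵥ* A) = b • (c • (α.1 ᵥ* A))
    rw [smul_vecMul, smul_comm]

lemma mkP_coe {v : Fin n → F} (A : Matrix (Fin n) (Fin n) F) (c μ : F) (h : A *ᵥ v = μ • v)
    (α : KK v) : (mkP A c μ h α).1 = c • (α.1 ᵥ* A) := rfl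

/-- functionals separate vectors -/
lemma sep {v x : Fin n → F} (hv : v ≠ 0) (hx : ∀ c : F, x ≠ c • v) : ∃ α : KK v, α.1 ⬝ᵥ x ≠ 0 := by
  obtain ⟨i, hi⟩ := Function.ne_iff.1 hv
  by_contra hn
  push Not at hn
  apply hx (x i / v i)
  funext j
  have h1 : (v i • Pi.single j (1 : F) - v j • Pi.single i (1 : F)) ⬝ᵥ v = 0 := by
    rw [sub_dotProduct, smul_dotProduct, smul_dotProduct, single_one_dotProduct,
      single_one_dotProduct, smul_eq_mul, smul_eq_mul, mul_comm, sub_self]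
  have h2 := hn ⟨_, h1⟩
  change (v i • Pi.single j (1 : F) - v j • Pi.single i (1 : F)) ⬝ᵥ x = 0 at h2
  rw [sub_dotProduct, smul_dotProduct, smul_dotProduct, single_one_dotProduct,
      single_one_dotProduct, smul_eq_mul, smul_eq_mul, sub_eq_zero] at h2
  rw [Pi.smul_apply, smul_eq_mul, div_mul_eq_mul_div, eq_div_iff hi, mul_comm, h2, mul_comm]

theorem t_E : SC → SE := by
  intro hSC F _ _ _ n θ hθ f hf g g' v φ lam hv hgv hw hφ hg'
  obtain ⟨w0, hw0⟩ := hw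
  have e1 : (g : Matrix (Fin n) (Fin n) F) * ((g⁻¹ : SpecialLinearGroup (Fin n) F) :
      Matrix (Fin n) (Fin n) F) = 1 := by
    rw [← slmul, mul_inv_cancel, slone]
  have e2 : ((g⁻¹ : SpecialLinearGroup (Fin n) F) : Matrix (Fin n) (Fin n) F) *
      (g : Matrix (Fin n) (Fin n) F) = 1 := by
    rw [← slmul, inv_mul_cancel, slone]
  obtain ⟨A, hA⟩ : ∃ A, A = (g : Matrix (Fin n) (Fin n) F) := ⟨_, rfl⟩
  obtain ⟨B, hB⟩ : ∃ B, B = ((g⁻¹ : SpecialLinearGroup (Fin n) F) : Matrix (Fin n) (Fin n) F) :=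
    ⟨_, rfl⟩
  rw [← hA, ← hB] at e1 e2
  rw [← hA] at hgv hg' hw0
  have hlam : lam ≠ 0 := by
    rintro rfl
    apply hv
    rw [zero_smul] at hgv
    rw [← one_mulVec v, ← e2, ← mulVec_mulVec, hgv, mulVec_zero]
  have hBv : B *ᵥ v = lam⁻¹ • v := by
    have h1 : B *ᵥ (A *ᵥ v) = v := by rw [mulVec_mulVec, e2, one_mulVec]
    rw [hgv, mulVec_smul] at h1
    rw [eq_inv_smul_iff₀ hlam]
    exact h1
  obtain ⟨P, hP⟩ : ∃ P : KK v →ₗ[F] KK v, ∀ α, (P α).1 = lam • (α.1 ᵥ* B) :=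
    ⟨mkP B lam lam⁻¹ hBv, fun α => rfl⟩
  obtain ⟨P', hP'⟩ : ∃ P : KK v →ₗ[F] KK v, ∀ α, (P α).1 = lam⁻¹ • (α.1 ᵥ* A) :=
    ⟨mkP A lam⁻¹ lam hgv, fun α => rfl⟩
  have hPP' : ∀ α, P (P' α) = α := by
    intro α
    apply Subtype.ext
    rw [hP, hP', smul_vecMul, vecMul_vecMul, e1, vecMul_one, smul_smul, mul_inv_cancel₀ hlam,
      one_smul]
  have hP'P : ∀ α, P' (P α) = α := by
    intro α
    apply Subtype.ext
    rw [hP', hP, smul_vecMul, vecMul_vecMul, e2, vecMul_one, smul_smul, inv_mul_cancel₀ hlam,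
      one_smul]
  have hc1 : ∀ α, g * tv v α * g⁻¹ = tv v (P α) := by
    intro α
    refine slext ?_
    rw [slmul, slmul, tv_coe, tv_coe, hP, ← hA, ← hB,
      mul_add, add_mul, mul_one, e1, mul_vecMulVec, hgv, vecMulVec_mul, smul_vecMulVec,
      vecMulVec_smul]
  have hc2 : ∀ α, tv v α * g = g * tv v (P' α) := by
    intro α
    rw [← hPP' α, ← hc1, hPP']
    group
  -- the subgroup
  obtain ⟨W, hW⟩ : ∃ W : Submodule F (KK v), W = LinearMap.range (P - LinearMap.id) := ⟨_, rfl⟩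
  have hWmem : ∀ w, w ∈ W ↔ ∃ β, P β - β = w := by
    intro w
    rw [hW]
    exact Iff.rfl
  obtain ⟨D, hD⟩ : ∃ D : Subgroup (SpecialLinearGroup (Fin n) F),
      ∀ x, x ∈ D ↔ ∃ w ∈ W, tv v w = x :=
    ⟨{ carrier := {x | ∃ w ∈ W, tv v w = x}
       mul_mem' := by
        rintro _ _ ⟨w, hw, rfl⟩ ⟨w', hw', rfl⟩
        exact ⟨w + w', W.add_mem hw hw', tv_add v w w'⟩
       one_mem' := ⟨0, W.zero_mem, tv_zero v⟩
       inv_mem' := by
        rintro _ ⟨w, hw, rfl⟩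
        exact ⟨-w, W.neg_mem hw, tv_neg v w⟩ }, fun x => Iff.rfl⟩
  obtain ⟨α0, hα0⟩ : ∃ α0 : KK v, α0.1 = lam⁻¹ • φ :=
    ⟨⟨lam⁻¹ • φ, by
      show (lam⁻¹ • φ) ⬝ᵥ v = 0
      rw [smul_dotProduct, hφ, smul_zero]⟩, rfl⟩
  have hga : g' = g * tv v α0 := by
    refine slext ?_
    rw [hg', slmul, tv_coe, ← hA, mul_add, mul_one, mul_vecMulVec, hgv, hα0,
      smul_vecMulVec, vecMulVec_smul, smul_smul, mul_inv_cancel₀ hlam, one_smul]
  -- conjugation by elements of `D`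
  have hconj : ∀ w ∈ W, ∀ a : KK v, θ (g * tv v a * tv v w) = θ (g * tv v a) := by
    intro w hw a
    obtain ⟨β, hβ⟩ := (hWmem w).1 hw
    rw [← hθ.conj (g * tv v a) (tv v (-(P β)))]
    congr 1
    rw [← mul_assoc, hc2, map_neg, hP'P, ← tv_neg, neg_neg, mul_assoc, mul_assoc, ← tv_add,
      ← tv_add, mul_assoc, ← tv_add, ← hβ]
    congr 2
    abel
  have hconj0 : ∀ w ∈ W, θ (g * tv v w) = θ g := by
    intro w hw
    have h1 := hconj w hw 0
    rwa [tv_zero, mul_one] at h1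
  -- `W` is not zero
  obtain ⟨w1, hw1, hw10⟩ : ∃ w1 ∈ W, w1 ≠ 0 := by
    by_contra hn
    push Not at hn
    have h1 : ∀ β, P β = β := fun β => sub_eq_zero.1 (hn _ ((hWmem _).2 ⟨β, rfl⟩))
    obtain ⟨β, hβ⟩ := sep hv hw0
    apply hβ
    have h2 : P' β = β := by
      have := hP'P β
      rwa [h1] at this
    have h3 := hP' β
    rw [h2] at h3
    have h4 : β.1 ᵥ* A = lam • β.1 := by
      rw [← inv_smul_eq_iff₀ hlam]
      exact h3.symm
    rw [dotProduct_sub, dotProduct_mulVec, h4, smul_dotProduct, dotProduct_smul, sub_self]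
  have hfr : f ≤ (θ 1).re := by
    have h1 := hθ.norm_le (tv v w1)
    rw [hf _ (tv_isTv hv hw10), Complex.norm_real] at h1
    exact (le_abs_self f).trans h1
  by_cases hα : α0 ∈ W
  · rw [hga, hconj0 α0 hα, sub_self, norm_zero]
    exact div_nonneg (by linarith) (Nat.cast_nonneg _)
  · have h1 := hSC (SpecialLinearGroup (Fin n) F) θ hθ D g (tv v α0) (f : ℂ) ?_ ?_ ?_ ?_ ?_ ?_ ?_ ?_
    · rw [← hga, Complex.ofReal_re] at h1
      refine h1.trans (div_le_div_of_nonneg_left (by linarith) ?_ ?_)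
      · exact_mod_cast Nat.card_pos
      · have h2 : Function.Injective fun c : F => (⟨tv v (c • w1),
            (hD _).2 ⟨_, W.smul_mem c hw1, rfl⟩⟩ : D) := by
          intro c c' h
          have h3 := tv_inj hv (Subtype.ext_iff.1 h)
          exact smul_left_injective F hw10 h3
        exact_mod_cast Nat.card_le_card_of_injective _ h2
    · intro d hd
      obtain ⟨w, hw, rfl⟩ := (hD d).1 hd
      rw [hc1]
      refine (hD _).2 ⟨_, ?_, rfl⟩
      obtain ⟨β, hβ⟩ := (hWmem w).1 hw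
      refine (hWmem _).2 ⟨P β, ?_⟩
      rw [← hβ, map_sub]
    · intro d hd
      obtain ⟨w, hw, rfl⟩ := (hD d).1 hd
      exact tv_comm v _ _
    · rw [hc1, ← tv_neg, ← tv_add]
      exact (hD _).2 ⟨_, (hWmem _).2 ⟨α0, (sub_eq_add_neg _ _)⟩, rfl⟩
    · rw [← tv_add, ← two_smul F α0, CharTwo.two_eq_zero, zero_smul, tv_zero]
    · intro d hd
      obtain ⟨w, hw, rfl⟩ := (hD d).1 hd
      exact hconj0 w hw
    · intro d hd
      obtain ⟨w, hw, rfl⟩ := (hD d).1 hd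
      exact hconj w hw α0
    · intro d hd hd1
      obtain ⟨w, hw, rfl⟩ := (hD d).1 hd
      apply hf _ (tv_isTv hv _)
      rintro rfl
      exact hd1 (tv_zero v)
    · intro d hd
      obtain ⟨w, hw, rfl⟩ := (hD d).1 hd
      rw [← tv_add]
      apply hf _ (tv_isTv hv _)
      intro h
      apply hα
      rw [eq_neg_of_add_eq_zero_left h]
      exact W.neg_mem hw

end Pool.Agent.Y98.SL
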